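import Pool.Agent.PakC

set_option autoImplicit false
set_option linter.unusedSectionVars false

namespace Pool.Agent.Results.MP_8d2225_pr.AbelianNoCutoff

open Filter Topology Finset

/-- Transition matrix of the lazy simple random walk on `Cay(G,S)`: stay put with probability
`1/2`, otherwise move from `x` to `x + s` with `s` uniform in `S`. -/
noncomputable def lazyWalk {G : Type} [AddCommGroup G] [Fintype G] [DecidableEq G]
    (S : Finset G) : Matrix G G ℝ := fun x y =>
  (1 / 2) * (if y = x then 1 else 0) + (1 / 2) * (if y - x ∈ S then 1 / (S.card : ℝ) else 0)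

/-- `d(t) = max_x ‖P^t(x,·) - π‖_TV`, with `π` uniform. -/
noncomputable def dist {V : Type} [Fintype V] [DecidableEq V] (P : Matrix V V ℝ) (t : ℕ) : ℝ :=
  ⨆ x, (1 / 2) * ∑ y, |(P ^ t) x y - 1 / (Fintype.card V : ℝ)|

/-- `T_mix(ε)`: the first time at which `d(t) ≤ ε`. -/
noncomputable def tmix {V : Type} [Fintype V] [DecidableEq V] (P : Matrix V V ℝ) (ε : ℝ) : ℕ :=
  sInf {t : ℕ | dist P t ≤ ε}

/-- The largest eigenvalue of `P` different from `1` (the walks are irreducible, so the eigenvalue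
`1` is simple and this is the second largest eigenvalue). -/
noncomputable def lam2 {V : Type} [Fintype V] [DecidableEq V] (P : Matrix V V ℝ) : ℝ :=
  sSup {l : ℝ | l ≠ 1 ∧ ∃ f : V → ℝ, f ≠ 0 ∧ P.mulVec f = l • f}

/-- relaxation time -/
noncomputable def trel {V : Type} [Fintype V] [DecidableEq V] (P : Matrix V V ℝ) : ℝ :=
  1 / (1 - lam2 P)

/-- the generating set of the example -/
def gen {n : ℕ} (π : Pak.Params n) : Finset (Pak.VV π) :=
  univ.filter (fun g => g ≠ 0 ∧ (g.2 = 0 ∨ g.1 ∈ Pak.SS π))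

lemma mem_gen {n : ℕ} (π : Pak.Params n) (x y : Pak.VV π) :
    y - x ∈ gen π ↔ (Pak.GG π).Adj x y := by
  unfold gen
  simp only [mem_filter, mem_univ, true_and, Prod.snd_sub, Prod.fst_sub]
  constructor
  · rintro ⟨h1, h2⟩
    refine ⟨fun h => h1 (by rw [h, sub_self]), ?_⟩
    rcases h2 with h2 | h2
    · exact Or.inl (sub_eq_zero.1 h2)
    · exact Or.inr h2
  · rintro ⟨h1, h2⟩
    refine ⟨fun h => h1 (sub_eq_zero.1 h).symm, ?_⟩
    rcases h2 with h2 | h2
    · exact Or.inl (sub_eq_zero.2 h2)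
    · exact Or.inr h2

lemma gen_card {n : ℕ} (π : Pak.Params n) : ((gen π).card : ℝ) = Pak.DD π := by
  classical
  rw [← Pak.GG_degree π 0, ← SimpleGraph.card_neighborSet_eq_degree, Fintype.card_subtype]
  congr 2
  ext y
  simp only [mem_filter, mem_univ, true_and, SimpleGraph.mem_neighborSet]
  rw [← mem_gen, sub_zero]

lemma lazy_eq {n : ℕ} (π : Pak.Params n) : lazyWalk (gen π) = Pak.PP π := by
  classical
  ext x y
  rw [Pak.PP_apply']
  unfold lazyWalk
  rw [gen_card]
  simp_rw [mem_gen]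
  have hD := Pak.DD_ge1 π
  unfold Pak.cc
  by_cases h : x = y
  · subst h
    simp
  · have h' : ¬ (y = x) := fun e => h e.symm
    simp only [h, h', if_false]
    split_ifs <;> field_simp <;> ring

lemma gen_symm {n : ℕ} (π : Pak.Params n) (s : Pak.VV π) (hs : s ∈ gen π) : -s ∈ gen π := by
  have h1 : s - 0 ∈ gen π := by rwa [sub_zero]
  rw [mem_gen] at h1
  have h2 := h1.symm
  rw [← mem_gen, zero_sub] at h2
  exact h2

lemma gen_closure {n : ℕ} (π : Pak.Params n) :
    AddSubgroup.closure (gen π : Set (Pak.VV π)) = ⊤ := by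
  rw [eq_top_iff]
  rintro ⟨x, v⟩ -
  have h0 := Pak.zero_mem_SS π
  have h1 : ((x, 0) : Pak.VV π) ∈ AddSubgroup.closure (gen π : Set (Pak.VV π)) := by
    by_cases h : x = 0
    · subst h
      exact AddSubgroup.zero_mem _
    · apply AddSubgroup.subset_closure
      simp [gen, h]
  have h2 : ((0, v) : Pak.VV π) ∈ AddSubgroup.closure (gen π : Set (Pak.VV π)) := by
    by_cases h : v = 0
    · subst h
      exact AddSubgroup.zero_mem _
    · apply AddSubgroup.subset_closure
      simp [gen, h, h0]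
  have := AddSubgroup.add_mem _ h1 h2
  simpa using this

lemma dist_eq {n : ℕ} (π : Pak.Params n) (t : ℕ) : dist (Pak.PP π) t = Pak.tv π t 0 :=
  Pak.iSup_tv π t

lemma tmix_eq {n : ℕ} (π : Pak.Params n) (ε : ℝ) :
    tmix (Pak.PP π) ε = Pak.tm (fun t => Pak.tv π t 0) ε := by
  unfold tmix Pak.tm
  simp_rw [dist_eq]

lemma lam2_le {n : ℕ} (π : Pak.Params n) (hn : 1 ≤ n) : lam2 (Pak.PP π) ≤ 5 / 6 := by
  unfold lam2
  apply Real.sSup_le _ (by norm_num)
  rintro l ⟨hl, f, hf, hPf⟩
  have h := Pak.eig_bound π hn f hf l (fun x => by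
    have := congrFun hPf x
    simpa [Matrix.mulVec, dotProduct] using this) hl
  exact (le_abs_self l).trans h

/-- **Main theorem.** It is false that for all finite abelian groups `G_n` with `|G_n| → ∞` and all
symmetric generating sets `S_n` (not containing `0`), the product condition implies total variation
cutoff for the lazy simple random walk on `Cay(G_n, S_n)`. -/
theorem result :
    ¬ (∀ (G : ℕ → Type) [∀ n, AddCommGroup (G n)] [∀ n, Fintype (G n)] [∀ n, DecidableEq (G n)]
        (S : ∀ n, Finset (G n)),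
        (∀ n, (0 : G n) ∉ S n) →
        (∀ n, ∀ s ∈ S n, -s ∈ S n) →
        (∀ n, AddSubgroup.closure (S n : Set (G n)) = ⊤) →
        Tendsto (fun n => Fintype.card (G n)) atTop atTop →
        Tendsto (fun n => (tmix (lazyWalk (S n)) (1 / 4) : ℝ) / trel (lazyWalk (S n))) atTop atTop →
        ∀ ε : ℝ, 0 < ε → ε < 1 / 2 →
          Tendsto (fun n => (tmix (lazyWalk (S n)) ε : ℝ) / tmix (lazyWalk (S n)) (1 - ε))
            atTop (𝓝 1)) := by
  classical
  intro H
  have h100 : ∀ n : ℕ, 100 ≤ n + 100 := fun n => by omega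
  have h1 : ∀ n : ℕ, 1 ≤ n + 100 := fun n => by omega
  have hlow : ∀ n : ℕ, ∀ t ≤ n + 100, 27 / 40 ≤ Pak.tv (Pak.par n) t 0 :=
    fun n t ht => Pak.tv_lower (Pak.par n) (by omega) t ht 0
  have hup : ∀ n : ℕ, ∀ t, Pak.tv (Pak.par n) t 0 ≤
      (1 - Pak.bet (Pak.par n)) ^ t + 4 * Pak.bet (Pak.par n) :=
    fun n t => Pak.tv_upper (Pak.par n) (h1 n) t 0
  have h2 := H (fun n => Pak.VV (Pak.par n)) (fun n => gen (Pak.par n))
    (fun n => by simp [gen]) (fun n => gen_symm _) (fun n => gen_closure _)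
    (by
      apply tendsto_atTop_mono (fun n => Pak.card_VV_ge (Pak.par n))
      exact tendsto_atTop_mono (fun n => Nat.le_add_right n 100) tendsto_id)
    (by
      simp_rw [lazy_eq, tmix_eq]
      have h3 : Tendsto (fun n : ℕ => (n : ℝ) / 6) atTop atTop :=
        tendsto_natCast_atTop_atTop.atTop_div_const (by norm_num)
      apply tendsto_atTop_mono _ h3
      intro n
      have h4 := Pak.tm_lower (ε := 1 / 4) (h100 n) (Pak.bet_pos (Pak.par n))
        (Pak.bet_le (Pak.par n) (h1 n)) (hlow n) (hup n) (by norm_num) (by norm_num)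
      have h5 := lam2_le (Pak.par n) (h1 n)
      unfold trel
      rw [div_div_eq_mul_div, div_one]
      have h6 : (n : ℝ) ≤ Pak.tm (fun t => Pak.tv (Pak.par n) t 0) (1 / 4) := by
        have : n ≤ Pak.tm (fun t => Pak.tv (Pak.par n) t 0) (1 / 4) := by omega
        exact_mod_cast this
      have h7 : (1 : ℝ) / 6 ≤ 1 - lam2 (Pak.PP (Pak.par n)) := by linarith
      calc (n : ℝ) / 6 = n * (1 / 6) := by ring
        _ ≤ _ := mul_le_mul h6 h7 (by norm_num) (by positivity))
    (1 / 50) (by norm_num) (by norm_num)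
  simp_rw [lazy_eq, tmix_eq] at h2
  have e : (1 : ℝ) - 1 / 50 = 49 / 50 := by norm_num
  rw [e] at h2
  refine Pak.not_tendsto_ratio _ _ (fun n => n + 100) (fun n => ⟨?_, ?_⟩) h2
  · exact Pak.tm_lower (h100 n) (Pak.bet_pos (Pak.par n))
      (Pak.bet_le (Pak.par n) (h1 n)) (hlow n) (hup n) (by norm_num) (by norm_num)
  · exact Pak.tm_upper (h100 n) (Pak.bet_le (Pak.par n) (h1 n)) (Pak.bet_ge (Pak.par n)) (hup n)

end Pool.Agent.Results.MP_8d2225_pr.AbelianNoCutoff
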